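import Pool.Agent.Q173.KS.Stm

/-! KS-REC: recursion of the series `GG` (for helper173, project KS). -/

set_option autoImplicit false

namespace Pool.Agent.Q13.KS

open Pool.Agent.Q173.KS Finset

theorem uu_succ_left (M : ℕ) : ∀ j : ℕ, (j : ℝ) + 1 < 2 * M →
    uu (M + 1) j * (2 * (M : ℝ) + 1) = uu M j * (2 * (M : ℝ) - j + 1)
  | 0, _ => by simp [uu]
  | 1, _ => by simp [uu]
  | (j + 2), h => by
    push_cast at h
    have ih := uu_succ_left M j (by linarith)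
    have h1 : (2 * (M : ℝ) - j - 1) ≠ 0 := by
      have : 0 < 2 * (M : ℝ) - j - 1 := by linarith
      exact this.ne'
    have h2 : (2 * ((M : ℝ) + 1) - j - 1) ≠ 0 := by
      have : 0 < 2 * ((M : ℝ) + 1) - j - 1 := by linarith
      exact this.ne'
    have e1 : uu (M + 1) (j + 2) = -(((j : ℝ) + 1) / (2 * ((M + 1 : ℕ) : ℝ) - j - 1)) *
        uu (M + 1) j := rfl
    have e2 : uu M (j + 2) = -(((j : ℝ) + 1) / (2 * (M : ℝ) - j - 1)) * uu M j := rfl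
    rw [e1, e2]
    push_cast
    have e3 : -(((j : ℝ) + 1) / (2 * ((M : ℝ) + 1) - j - 1)) * uu (M + 1) j * (2 * (M : ℝ) + 1)
        = -((j : ℝ) + 1) * uu M j := by
      have e4 : -(((j : ℝ) + 1) / (2 * ((M : ℝ) + 1) - j - 1)) * uu (M + 1) j *
          (2 * (M : ℝ) + 1) = -(((j : ℝ) + 1) / (2 * ((M : ℝ) + 1) - j - 1)) *
          (uu (M + 1) j * (2 * (M : ℝ) + 1)) := by ring
      rw [e4, ih]
      have e5 : (2 * (M : ℝ) - j + 1) = 2 * ((M : ℝ) + 1) - j - 1 := by ring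
      rw [e5]
      field_simp
    rw [e3]
    have e6 : (2 * (M : ℝ) - ((j : ℝ) + 2) + 1) = 2 * (M : ℝ) - j - 1 := by ring
    rw [e6]
    field_simp

theorem rec : S_REC := by
  intro N j hN
  obtain ⟨M, rfl⟩ : ∃ M, N = M + 1 := ⟨N - 1, by omega⟩
  have hM : j + 2 ≤ M := by omega
  have hMr : (j : ℝ) + 2 ≤ M := by exact_mod_cast hM
  have hj0 : (0 : ℝ) ≤ j := Nat.cast_nonneg j
  rw [show M + 1 - 1 = M by omega]
  -- the values of `uu`
  have a1 : uu (M + 1) j * (2 * (M : ℝ) + 1) = uu M j * (2 * (M : ℝ) - j + 1) :=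
    uu_succ_left M j (by linarith)
  have a2 : uu (M + 1 + 1) j * (2 * ((M + 1 : ℕ) : ℝ) + 1) =
      uu (M + 1) j * (2 * ((M + 1 : ℕ) : ℝ) - j + 1) :=
    uu_succ_left (M + 1) j (by push_cast; linarith)
  have b1 : uu (M + 1) (j + 2) = -(((j : ℝ) + 1) / (2 * ((M + 1 : ℕ) : ℝ) - j - 1)) *
      uu (M + 1) j := rfl
  have b2 : uu (M + 1 + 1) (j + 2) = -(((j : ℝ) + 1) / (2 * ((M + 1 + 1 : ℕ) : ℝ) - j - 1)) *
      uu (M + 1 + 1) j := rfl
  -- the binomials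
  have c1 : ((M + 1 : ℕ) : ℝ) * (M.choose j : ℝ) = ((M + 1).choose (j + 1) : ℝ) * ((j : ℝ) + 1) := by
    have := Nat.add_one_mul_choose_eq M j
    exact_mod_cast this
  have c2 : ((M + 1 + 1 : ℕ) : ℝ) * ((M + 1).choose (j + 1) : ℝ) =
      ((M + 1 + 1).choose (j + 2) : ℝ) * ((j : ℝ) + 2) := by
    have := Nat.add_one_mul_choose_eq (M + 1) (j + 1)
    have h2 : ((M + 1 + 1 : ℕ) : ℝ) * ((M + 1).choose (j + 1) : ℝ) =
      ((M + 1 + 1).choose (j + 1 + 1) : ℝ) * (((j + 1 + 1 : ℕ)) : ℝ) := by exact_mod_cast this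
    rw [h2]
    push_cast
    ring
  have c3 : ((M + 1).choose (j + 2) : ℝ) * ((j : ℝ) + 2) =
      ((M + 1).choose (j + 1) : ℝ) * ((M : ℝ) - j) := by
    have := Nat.choose_succ_right_eq (M + 1) (j + 1)
    have h2 : ((M + 1).choose (j + 1 + 1) : ℝ) * ((j + 1 + 1 : ℕ) : ℝ) =
        ((M + 1).choose (j + 1) : ℝ) * ((M + 1 - (j + 1) : ℕ) : ℝ) := by exact_mod_cast this
    rw [Nat.cast_sub (by omega)] at h2
    push_cast at h2
    have h3 : (M : ℝ) + 1 - ((j : ℝ) + 1) = (M : ℝ) - j := by ring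
    rw [h3] at h2
    rw [← h2]
    ring
  have p1 : ((j : ℝ) + 1) ≠ 0 := by positivity
  have p2 : ((j : ℝ) + 2) ≠ 0 := by positivity
  have p3 : (2 * (M : ℝ) + 1) ≠ 0 := by positivity
  have p4 : (2 * ((M : ℝ) + 1) + 1) ≠ 0 := by positivity
  have p5 : (2 * ((M : ℝ) + 1) - j - 1) ≠ 0 := by
    have : 0 < 2 * ((M : ℝ) + 1) - j - 1 := by linarith
    exact this.ne'
  have p6 : (2 * ((M : ℝ) + 1 + 1) - j - 1) ≠ 0 := by
    have : 0 < 2 * ((M : ℝ) + 1 + 1) - j - 1 := by linarith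
    exact this.ne'
  have p7 : (4 * ((M : ℝ) + 1) ^ 2 - 1) ≠ 0 := by
    have : 4 * ((M : ℝ) + 1) ^ 2 - 1 = (2 * (M : ℝ) + 1) * (2 * ((M : ℝ) + 1) + 1) := by ring
    rw [this]
    exact mul_ne_zero p3 p4
  push_cast at a2 b1 b2 c1 c2 ⊢
  set g := uu M j with hg
  set c := (M.choose j : ℝ) with hc
  have d1 : uu (M + 1) j = g * (2 * (M : ℝ) - j + 1) / (2 * (M : ℝ) + 1) := by
    field_simp
    linarith
  have d2 : uu (M + 1 + 1) j = uu (M + 1) j * (2 * ((M : ℝ) + 1) - j + 1) / (2 * ((M : ℝ) + 1) + 1) := by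
    field_simp
    linarith
  have d3 : ((M + 1).choose (j + 1) : ℝ) = ((M : ℝ) + 1) * c / ((j : ℝ) + 1) := by
    field_simp
    linarith
  have d4 : ((M + 1 + 1).choose (j + 2) : ℝ) =
      ((M : ℝ) + 1 + 1) * ((M + 1).choose (j + 1) : ℝ) / ((j : ℝ) + 2) := by
    field_simp
    linarith
  have d5 : ((M + 1).choose (j + 2) : ℝ) =
      ((M + 1).choose (j + 1) : ℝ) * ((M : ℝ) - j) / ((j : ℝ) + 2) := by
    field_simp
    linarith
  have e1 : uu (M + 1) (j + 2) = -((j : ℝ) + 1) * g / (2 * (M : ℝ) + 1) := by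
    rw [b1, d1]
    have : (2 * (M : ℝ) - j + 1) = 2 * ((M : ℝ) + 1) - j - 1 := by ring
    rw [this]
    field_simp
  have e2 : uu (M + 1 + 1) (j + 2) = -((j : ℝ) + 1) * (g * (2 * (M : ℝ) - j + 1)) /
      ((2 * (M : ℝ) + 1) * (2 * ((M : ℝ) + 1) + 1)) := by
    rw [b2, d2, d1]
    have : (2 * ((M : ℝ) + 1) - j + 1) = 2 * ((M : ℝ) + 1 + 1) - j - 1 := by ring
    rw [this]
    field_simp
  rw [e1, e2, d4, d5, d3]
  have p8 : (4 * ((M : ℝ) + 1) ^ 2 - 1) = (2 * (M : ℝ) + 1) * (2 * ((M : ℝ) + 1) + 1) := by ring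
  rw [p8]
  field_simp
  ring

end Pool.Agent.Q13.KS
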